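import Mathlib

/-!
# An IRC-colourable graph with no IRC-colouring with `χ(G)` colours

The graph `G` has `16` vertices: it is obtained from a cubic graph `H` on `8` vertices by replacing every
vertex by two non-adjacent twins. It has chromatic number `3` and an IRC-colouring with `4` colours, but no
IRC-colouring with `3` colours.
-/

set_option autoImplicit false

namespace Pool.Agent.Results.MP_c3fc26_co.FourNotThree

open SimpleGraph

/-- The closed neighbourhood `N[v]`. -/
def closedNbhd {V : Type} (G : SimpleGraph V) (v : V) : Set V := {w | w = v ∨ G.Adj v w}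

/-- The private neighbourhood of `v` with respect to `S`. -/
def privateNbhd {V : Type} (G : SimpleGraph V) (v : V) (S : Set V) : Set V :=
  closedNbhd G v \ ⋃ u ∈ S \ {v}, closedNbhd G u

/-- `S` is irredundant. -/
def Irredundant {V : Type} (G : SimpleGraph V) (S : Set V) : Prop :=
  ∀ v ∈ S, (privateNbhd G v S).Nonempty

/-- `c` is an IRC-colouring with `k` (nonempty) colour classes: a proper colouring such that every rainbow
committee `{x_1, …, x_k}`, with `x_i` of colour `i`, is irredundant. -/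
def IsIRC {V : Type} (G : SimpleGraph V) {k : ℕ} (c : V → Fin k) : Prop :=
  Function.Surjective c ∧ (∀ u v, G.Adj u v → c u ≠ c v) ∧
    ∀ x : Fin k → V, (∀ i, c (x i) = i) → Irredundant G (Set.range x)

/-- the edges of the cubic graph on `8` vertices -/
def edges : List (ℕ × ℕ) :=
  [(0, 1), (0, 2), (0, 3), (1, 4), (2, 4), (1, 5), (3, 5), (2, 6), (4, 6), (3, 7), (5, 7), (6, 7)]

/-- The cubic graph on `8` vertices. -/
def H : SimpleGraph (Fin 8) := SimpleGraph.fromRel fun i j => (i.val, j.val) ∈ edges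

instance : DecidableRel H.Adj := fun i j =>
  inferInstanceAs (Decidable (i ≠ j ∧ ((i.val, j.val) ∈ edges ∨ (j.val, i.val) ∈ edges)))

/-- Every vertex of `H` is replaced by two non-adjacent twins. -/
def G : SimpleGraph (Fin 8 × Fin 2) := H.comap Prod.fst

instance : DecidableRel G.Adj := fun i j => inferInstanceAs (Decidable (H.Adj i.1 j.1))

theorem mem_private {V : Type} {G : SimpleGraph V} {v w : V} {S : Set V}
    (h : w ∈ privateNbhd G v S) {u : V} (hu : u ∈ S) (huv : u ≠ v) : w ∉ closedNbhd G u := by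
  intro hw
  apply h.2
  simp only [Set.mem_iUnion]
  exact ⟨u, ⟨hu, huv⟩, hw⟩

theorem not_rainbow {V : Type} {G : SimpleGraph V} {c : V → Fin 3} (h : IsIRC G c) {u y z : V}
    (hsub : ∀ w, w ∈ closedNbhd G u → w ∈ closedNbhd G y ∨ w ∈ closedNbhd G z)
    (h1 : c u ≠ c y) (h2 : c u ≠ c z) (h3 : c y ≠ c z) : False := by
  have hx : ∀ i, c ((fun i => if i = c u then u else if i = c y then y else z) i) = i := by
    intro i
    dsimp only
    split_ifs with e1 e2
    · exact e1.symm
    · exact e2.symm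
    · have h1' := fun e => h1 (Fin.ext e)
      have h2' := fun e => h2 (Fin.ext e)
      have h3' := fun e => h3 (Fin.ext e)
      have e1' := fun e => e1 (Fin.ext e)
      have e2' := fun e => e2 (Fin.ext e)
      apply Fin.ext
      omega
  have hirr := h.2.2 _ hx
  have hu : u ∈ Set.range (fun i => if i = c u then u else if i = c y then y else z) :=
    ⟨c u, by simp⟩
  have hy : y ∈ Set.range (fun i => if i = c u then u else if i = c y then y else z) :=
    ⟨c y, by simp [h1.symm]⟩
  have hz : z ∈ Set.range (fun i => if i = c u then u else if i = c y then y else z) :=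
    ⟨c z, by simp [h2.symm, h3.symm]⟩
  obtain ⟨w, hw⟩ := hirr u hu
  rcases hsub w hw.1 with h' | h'
  · exact mem_private hw hy (fun e => h1 (by rw [e])) h'
  · exact mem_private hw hz (fun e => h2 (by rw [e])) h'

instance (u w : Fin 8 × Fin 2) : Decidable (w ∈ closedNbhd G u) :=
  inferInstanceAs (Decidable (w = u ∨ G.Adj u w))

/-- twins get the same colour -/
theorem twin {c : Fin 8 × Fin 2 → Fin 3} (h : IsIRC G c) (v : Fin 8) : c (v, 0) = c (v, 1) := by
  by_contra hne
  have key : ∀ v : Fin 8, ∃ y : Fin 8 × Fin 2, G.Adj (v, 0) y ∧ G.Adj (v, 1) y ∧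
      ∀ w, w ∈ closedNbhd G (v, 0) → w ∈ closedNbhd G (v, 1) ∨ w ∈ closedNbhd G y := by
    decide +kernel
  obtain ⟨y, h1, h2, h3⟩ := key v
  exact not_rainbow h h3 hne (h.2.1 _ _ h1) (h.2.1 _ _ h2)

theorem no_three {c : Fin 8 × Fin 2 → Fin 3} (h : IsIRC G c) : False := by
  have a (u v : Fin 8) (huv : H.Adj u v) : c (u, 0) ≠ c (v, 0) := h.2.1 (u, 0) (v, 0) huv
  have e12 : c (2, 0) = c (1, 0) := by
    by_contra hne
    exact not_rainbow (u := (2, 0)) (y := (1, 0)) (z := (4, 0)) h (by decide +kernel) hne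
      (a 2 4 (by decide)) (a 1 4 (by decide))
  have e13 : c (3, 0) = c (1, 0) := by
    by_contra hne
    exact not_rainbow (u := (3, 0)) (y := (1, 0)) (z := (5, 0)) h (by decide +kernel) hne
      (a 3 5 (by decide)) (a 1 5 (by decide))
  have e40 : c (4, 0) = c (0, 0) := by
    by_contra hne
    exact not_rainbow (u := (4, 0)) (y := (0, 0)) (z := (2, 0)) h (by decide +kernel) hne
      (a 4 2 (by decide)) (a 0 2 (by decide))
  have e50 : c (5, 0) = c (0, 0) := by
    by_contra hne
    exact not_rainbow (u := (5, 0)) (y := (0, 0)) (z := (3, 0)) h (by decide +kernel) hne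
      (a 5 3 (by decide)) (a 0 3 (by decide))
  have h01 := a 0 1 (by decide)
  have h26 := a 2 6 (by decide)
  have h46 := a 4 6 (by decide)
  have h37 := a 3 7 (by decide)
  have h57 := a 5 7 (by decide)
  have h67 := a 6 7 (by decide)
  rw [e12] at h26
  rw [e13] at h37
  rw [e40] at h46
  rw [e50] at h57
  have h1' := fun e => h01 (Fin.ext e)
  have h2' := fun e => h26 (Fin.ext e)
  have h3' := fun e => h46 (Fin.ext e)
  have h4' := fun e => h37 (Fin.ext e)
  have h5' := fun e => h57 (Fin.ext e)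
  have h6' := fun e => h67 (Fin.ext e)
  omega

/-- the IRC-colouring with `4` colours -/
def col (v : Fin 8 × Fin 2) : Fin 4 := ([0, 1, 1, 1, 0, 0, 2, 3] : List (Fin 4)).getD v.1.val 0

/-- `w` is a private neighbour of `p` with respect to `{p, q, r, s}` -/
def Priv (p q r s w : Fin 8 × Fin 2) : Prop :=
  w ∈ closedNbhd G p ∧ w ∉ closedNbhd G q ∧ w ∉ closedNbhd G r ∧ w ∉ closedNbhd G s

instance (p q r s w : Fin 8 × Fin 2) : Decidable (Priv p q r s w) :=
  inferInstanceAs (Decidable (w ∈ closedNbhd G p ∧ w ∉ closedNbhd G q ∧ w ∉ closedNbhd G r ∧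
    w ∉ closedNbhd G s))

/-- every member of the committee has a private neighbour -/
def AllPriv (p q r s : Fin 8 × Fin 2) : Prop :=
  (∃ w, Priv p q r s w) ∧ (∃ w, Priv q p r s w) ∧ (∃ w, Priv r p q s w) ∧ ∃ w, Priv s p q r w

instance (p q r s : Fin 8 × Fin 2) : Decidable (AllPriv p q r s) :=
  inferInstanceAs (Decidable ((∃ w, Priv p q r s w) ∧ (∃ w, Priv q p r s w) ∧
    (∃ w, Priv r p q s w) ∧ ∃ w, Priv s p q r w))

set_option synthInstance.maxSize 4096 in
theorem col_key : ∀ p, col p = 0 → ∀ q, col q = 1 → ∀ r, col r = 2 → ∀ s, col s = 3 →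
    AllPriv p q r s := by
  decide +kernel

theorem irc_four : IsIRC G col := by
  refine ⟨?_, ?_, ?_⟩
  · intro i
    have : ∀ i : Fin 4, ∃ v, col v = i := by decide +kernel
    exact this i
  · have : ∀ u v, G.Adj u v → col u ≠ col v := by decide +kernel
    exact this
  · intro x hx v hv
    obtain ⟨i, rfl⟩ := hv
    obtain ⟨k0, k1, k2, k3⟩ := col_key (x 0) (hx 0) (x 1) (hx 1) (x 2) (hx 2) (x 3) (hx 3)
    have fin : ∀ j w, w ∈ closedNbhd G (x j) → (∀ l, l ≠ j → w ∉ closedNbhd G (x l)) →
        (privateNbhd G (x j) (Set.range x)).Nonempty := by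
      intro j w hw hl
      refine ⟨w, hw, ?_⟩
      simp only [Set.mem_iUnion, not_exists]
      rintro u ⟨⟨l, rfl⟩, hu⟩ hwu
      exact hl l (fun e => hu (by rw [e]; rfl)) hwu
    have all4 : ∀ l : Fin 4, l = 0 ∨ l = 1 ∨ l = 2 ∨ l = 3 := by decide
    rcases all4 i with rfl | rfl | rfl | rfl
    · obtain ⟨w, h0, h1, h2, h3⟩ := k0
      refine fin 0 w h0 fun l hl => ?_
      rcases all4 l with rfl | rfl | rfl | rfl
      exacts [absurd rfl hl, h1, h2, h3]
    · obtain ⟨w, h0, h1, h2, h3⟩ := k1
      refine fin 1 w h0 fun l hl => ?_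
      rcases all4 l with rfl | rfl | rfl | rfl
      exacts [h1, absurd rfl hl, h2, h3]
    · obtain ⟨w, h0, h1, h2, h3⟩ := k2
      refine fin 2 w h0 fun l hl => ?_
      rcases all4 l with rfl | rfl | rfl | rfl
      exacts [h1, h2, absurd rfl hl, h3]
    · obtain ⟨w, h0, h1, h2, h3⟩ := k3
      refine fin 3 w h0 fun l hl => ?_
      rcases all4 l with rfl | rfl | rfl | rfl
      exacts [h1, h2, h3, absurd rfl hl]

theorem chromatic : G.chromaticNumber = 3 := by
  have h3 : G.Colorable 3 := by
    refine ⟨SimpleGraph.Coloring.mk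
      (fun v => ([0, 1, 1, 1, 0, 2, 2, 0] : List (Fin 3)).getD v.1.val 0) ?_⟩
    have : ∀ u v, G.Adj u v → ([0, 1, 1, 1, 0, 2, 2, 0] : List (Fin 3)).getD u.1.val 0 ≠
        ([0, 1, 1, 1, 0, 2, 2, 0] : List (Fin 3)).getD v.1.val 0 := by decide +kernel
    intro u v
    exact this u v
  apply le_antisymm
  · exact h3.chromaticNumber_le
  · have h2 : ¬ G.Colorable 2 := by
      rintro ⟨c⟩
      have h1 := c.valid (show G.Adj (2, 0) (4, 0) by decide)
      have h2 := c.valid (show G.Adj (4, 0) (6, 0) by decide)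
      have h3 := c.valid (show G.Adj (2, 0) (6, 0) by decide)
      have : ∀ p q r : Fin 2, p ≠ q → q ≠ r → p ≠ r → False := by decide
      exact this _ _ _ h1 h2 h3
    by_contra hlt
    rw [not_le] at hlt
    apply h2
    rw [← SimpleGraph.chromaticNumber_le_iff_colorable]
    have : G.chromaticNumber < (2 : ℕ∞) + 1 := hlt
    exact Order.le_of_lt_add_one this

theorem connected : G.Connected := by
  have step : ∀ v : Fin 8 × Fin 2, ∃ p q : Fin 8 × Fin 2, (p = v ∨ G.Adj v p) ∧
      (q = p ∨ G.Adj p q) ∧ ((0, 0) = q ∨ G.Adj q (0, 0)) := by decide +kernel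
  have reach : ∀ u v : Fin 8 × Fin 2, (v = u ∨ G.Adj u v) → G.Reachable u v := by
    rintro u v (rfl | h)
    · exact SimpleGraph.Reachable.refl _
    · exact h.reachable
  have : Nonempty (Fin 8 × Fin 2) := ⟨(0, 0)⟩
  refine ⟨fun u v => ?_⟩
  have all : ∀ v, G.Reachable v (0, 0) := by
    intro v
    obtain ⟨p, q, h1, h2, h3⟩ := step v
    exact ((reach _ _ h1).trans (reach _ _ h2)).trans (reach _ _ h3)
  exact (all u).trans (all v).symm

/-- There is a connected graph with chromatic number `3` that has an IRC-colouring with `4` colours but none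
with `3` colours. -/
theorem result : ∃ G : SimpleGraph (Fin 8 × Fin 2), G.Connected ∧ G.chromaticNumber = 3 ∧
    (∃ c : Fin 8 × Fin 2 → Fin 4, IsIRC G c) ∧ ¬ ∃ c : Fin 8 × Fin 2 → Fin 3, IsIRC G c :=
  ⟨G, connected, chromatic, ⟨col, irc_four⟩, fun ⟨_, hc⟩ => no_three hc⟩

end Pool.Agent.Results.MP_c3fc26_co.FourNotThree
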